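import Pool.Agent.H966R2.Kak.Core

/-!
# Kakeya sets of subexponential decomposable complexity
-/

set_option autoImplicit false

namespace Pool.Agent.Results.MP_5168f5_an.CircuitKakeya

open Finset MeasureTheory Set Filter Metric
open scoped ENNReal

open Pool.Agent.H966R2.Circ Pool.Agent.H966R2.Kak

theorem kakeyaMax_le_one {d : ℕ} (E : Set (Sp d)) (r : ℝ) (e : Sp d) :
    kakeyaMax r (E.indicator 1) e ≤ 1 := by
  unfold kakeyaMax
  refine iSup_le fun a => ?_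
  refine le_trans (ENNReal.div_le_div_right ?_ _) ENNReal.div_self_le_one
  calc ∫⁻ y in tube r e a, ‖(E.indicator 1 : Sp d → ℝ) y‖ₑ ≤ ∫⁻ _y in tube r e a, 1 := by
        refine lintegral_mono fun y => ?_
        by_cases hy : y ∈ E
        · simp [hy]
        · simp [hy]
    _ = volume (tube r e a) := by simp

theorem maximal (d b : ℕ) (hd : 1 ≤ d) (hb : 2 ≤ b) (hb0 : 0 < b) {ε : ℝ} (hε : 0 < ε) :
    ∃ c : ℝ, 0 < c ∧ ∃ n0 : ℕ, ∀ n ≥ n0, ∀ (ι : Type) [Fintype ι]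
      (C : ι → Gate (d * n) b ι) (g : ι), Decomposable C →
      (Fintype.card ι : ℝ) ≤ (b : ℝ) ^ (c * n) →
      volume (region hb0 C g) < ENNReal.ofReal ((b : ℝ) ^ (-(ε * n))) → ∀ r : ℝ,
      ∫⁻ e : sphere (0 : Sp d) 1, kakeyaMax r ((region hb0 C g).indicator 1) e
        ∂(volume : Measure (Sp d)).toSphere ≤ ENNReal.ofReal ((b : ℝ) ^ (-(c * n))) := by
  obtain ⟨c, hc, n0, hn0⟩ := core_volume d b hd hb hb0 hε
  have hLb : 0 < Real.log b := Real.log_pos (by exact_mod_cast (by omega : 1 < b))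
  have hbR : (1 : ℝ) ≤ b := by exact_mod_cast (by omega : 1 ≤ b)
  have hcL : 0 < c / 2 * Real.log b := by positivity
  set σ := (volume : Measure (Sp d)).toSphere with hσ
  have hσfin : σ Set.univ ≠ ∞ := measure_ne_top _ _
  obtain ⟨n1, hn1⟩ := eventually_atTop.1 (eventually_lin_le_exp hcL 0 (1 + (σ Set.univ).toReal))
  refine ⟨c / 2, by positivity, max n0 n1, fun n hn ι _ C g hC hs hvol r => ?_⟩
  have h1 := hn1 n ((le_max_right _ _).trans hn)
  set y := Real.exp (c / 2 * Real.log b * n) with hy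
  have hy0 : 0 < y := Real.exp_pos _
  have hneg : (b : ℝ) ^ (-(c / 2 * n)) = y⁻¹ := by
    rw [rpow_eq_exp hb0, hy, ← Real.exp_neg]
    congr 1
    ring
  have hpow : (b : ℝ) ^ (-(c * n)) = y⁻¹ * y⁻¹ := by
    rw [rpow_eq_exp hb0, hy, ← Real.exp_neg, ← Real.exp_add]
    congr 1
    ring
  have hs' : (Fintype.card ι : ℝ) ≤ (b : ℝ) ^ (c * n) := by
    refine hs.trans (Real.rpow_le_rpow_of_exponent_le hbR ?_)
    have : 0 ≤ c / 2 * n := by positivity
    linarith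
  obtain ⟨G, hGm, hGle, hGint⟩ := exists_measurable_le_lintegral_eq σ
    (fun e : sphere (0 : Sp d) 1 => kakeyaMax r ((region hb0 C g).indicator 1) (e : Sp d))
  rw [hGint]
  set μ0 := ENNReal.ofReal ((b : ℝ) ^ (-(c * n))) with hμ0
  set Θ : Set (sphere (0 : Sp d) 1) := {e | μ0 < G e} with hΘ
  have hΘm : MeasurableSet Θ := measurableSet_lt measurable_const hGm
  have hG1 : ∀ e, G e ≤ 1 := fun e => (hGle e).trans (kakeyaMax_le_one _ _ _)
  have hσΘ : σ Θ ≤ μ0 := by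
    by_contra hcon
    push Not at hcon
    have h2 := hn0 n ((le_max_left _ _).trans hn) ι C g hC hs' Θ hΘm hcon.le (by
      intro e he
      obtain ⟨a, ha⟩ := line_of_tube (region hb0 C g) (measurableSet_region hb0 C g)
        (r := r) (e := (e : Sp d)) (by simpa using e.2)
        (lt_of_lt_of_le (show μ0 < G e from he) (hGle e))
      exact ⟨a, ha⟩)
    exact absurd hvol (not_lt.2 h2)
  calc ∫⁻ e, G e ∂σ ≤ ∫⁻ e, (Θ.indicator 1 e + μ0) ∂σ := by
        refine lintegral_mono fun e => ?_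
        by_cases he : e ∈ Θ
        · rw [Set.indicator_of_mem he]
          exact (hG1 e).trans le_self_add
        · rw [Set.indicator_of_notMem he, zero_add]
          exact not_lt.1 he
    _ = σ Θ + μ0 * σ Set.univ := by
        rw [lintegral_add_right _ measurable_const, lintegral_indicator_one hΘm, lintegral_const]
    _ ≤ μ0 * (1 + σ Set.univ) := by
        rw [mul_add, mul_one]
        exact add_le_add_left hσΘ _
    _ = ENNReal.ofReal (y⁻¹ * y⁻¹ * (1 + (σ Set.univ).toReal)) := by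
        rw [ENNReal.ofReal_mul (by positivity), ← hpow, ENNReal.ofReal_add (by norm_num)
          ENNReal.toReal_nonneg, ENNReal.ofReal_one, ENNReal.ofReal_toReal hσfin]
    _ ≤ _ := by
        rw [hneg]
        apply ENNReal.ofReal_le_ofReal
        calc y⁻¹ * y⁻¹ * (1 + (σ Set.univ).toReal) ≤ y⁻¹ * y⁻¹ * y := by
              apply mul_le_mul_of_nonneg_left _ (by positivity)
              linarith
          _ = y⁻¹ := by rw [mul_assoc, inv_mul_cancel₀ hy0.ne', mul_one]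

theorem kakeya_sets (d b : ℕ) (hd : 1 ≤ d) (hb : 2 ≤ b) (hb0 : 0 < b) {ε : ℝ} (hε : 0 < ε) :
    ∃ c : ℝ, 0 < c ∧ ∀ ℓ : ℝ, 0 < ℓ → ∃ n0 : ℕ, ∀ n ≥ n0, ∀ K : Set (Sp d),
      (∀ x ∈ K, ∀ i, 0 ≤ x i ∧ x i < 1) →
      (∀ e : Sp d, ‖e‖ = 1 → ∃ a : Sp d, ∀ t ∈ Icc (0 : ℝ) ℓ, a + t • e ∈ K) →
      Recognised (cubes b hb0 n K) ((b : ℝ) ^ (c * n)) →
      (b : ℝ) ^ ((d - ε) * n) ≤ ((cubes b hb0 n K).ncard : ℝ) := by
  obtain ⟨c, hc, n0, hn0⟩ := core d b hd hb hb0 hε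
  have hLb : 0 < Real.log b := Real.log_pos (by exact_mod_cast (by omega : 1 < b))
  have hcL : 0 < c * Real.log b := by positivity
  set σ := (volume : Measure (Sp d)).toSphere with hσ
  have hσfin : σ Set.univ ≠ ∞ := measure_ne_top _ _
  have hσpos : 0 < (σ Set.univ).toReal := by
    rw [ENNReal.toReal_pos_iff]
    refine ⟨?_, hσfin.lt_top⟩
    rw [hσ, Measure.toSphere_apply_univ, finrank_euclideanSpace, Fintype.card_fin]
    apply ENNReal.mul_pos
    · exact_mod_cast (by omega : d ≠ 0)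
    · exact (measure_ball_pos _ _ one_pos).ne'
  refine ⟨c, hc, fun ℓ hℓ => ?_⟩
  set m := min ℓ 1 with hm
  have hm0 : 0 < m := lt_min hℓ one_pos
  obtain ⟨n1, hn1⟩ := eventually_atTop.1 ((eventually_lin_le_exp hcL 0 ((σ Set.univ).toReal⁻¹)).and
    (eventually_lin_le_exp hcL 0 (m⁻¹)))
  refine ⟨max n0 n1, fun n hn K hK hseg hrec => ?_⟩
  obtain ⟨h1, h2⟩ := hn1 n ((le_max_right _ _).trans hn)
  obtain ⟨ι, hι, C, g, hC, hs, hacc⟩ := hrec
  have hneg : (b : ℝ) ^ (-(c * n)) = (Real.exp (c * Real.log b * n))⁻¹ := by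
    rw [rpow_eq_exp hb0, ← Real.exp_neg]
    congr 1
    ring
  have hKsub : K ⊆ region hb0 C g := by
    intro x hx
    exact ⟨hK x hx, (hacc _).2 ⟨x, hx, rfl⟩⟩
  have hmain := hn0 n ((le_max_left _ _).trans hn) ι C g hC hs Set.univ MeasurableSet.univ (by
      rw [← ENNReal.ofReal_toReal hσfin, hneg]
      apply ENNReal.ofReal_le_ofReal
      rw [inv_le_comm₀ (Real.exp_pos _) hσpos]
      linarith) (by
      intro e _
      obtain ⟨a, ha⟩ := hseg e (by simpa using e.2)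
      refine ⟨a, ?_⟩
      have h3 : Icc (0 : ℝ) m ⊆ {t : ℝ | t ∈ Icc (0 : ℝ) 1 ∧ a + t • (e : Sp d) ∈ region hb0 C g} := by
        intro t ht
        exact ⟨⟨ht.1, ht.2.trans (min_le_right _ _)⟩,
          hKsub (ha t ⟨ht.1, ht.2.trans (min_le_left _ _)⟩)⟩
      refine le_trans ?_ (measure_mono h3)
      rw [Real.volume_Icc, sub_zero, hneg]
      apply ENNReal.ofReal_le_ofReal
      rw [inv_le_comm₀ (Real.exp_pos _) hm0]
      linarith)
  have h4 : ({w | Acc C w g} : Set (Fin (d * n) → Fin b)) = cubes b hb0 n K := by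
    ext w
    exact hacc w
  rwa [h4] at hmain

/-- **Kakeya for sets of subexponential decomposable complexity.** -/
theorem result (d b : ℕ) (hd : 1 ≤ d) (hb : 2 ≤ b) (hb0 : 0 < b) (ε : ℝ) (hε : 0 < ε) :
    (∃ c : ℝ, 0 < c ∧ ∃ n0 : ℕ, ∀ n ≥ n0, ∀ (ι : Type) [Fintype ι]
      (C : ι → Gate (d * n) b ι) (g : ι), Decomposable C →
      (Fintype.card ι : ℝ) ≤ (b : ℝ) ^ (c * n) →
      volume (region hb0 C g) < ENNReal.ofReal ((b : ℝ) ^ (-(ε * n))) → ∀ r : ℝ,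
      ∫⁻ e : sphere (0 : Sp d) 1, kakeyaMax r ((region hb0 C g).indicator 1) e
        ∂(volume : Measure (Sp d)).toSphere ≤ ENNReal.ofReal ((b : ℝ) ^ (-(c * n)))) ∧
    (∃ c : ℝ, 0 < c ∧ ∀ ℓ : ℝ, 0 < ℓ → ∃ n0 : ℕ, ∀ n ≥ n0, ∀ K : Set (Sp d),
      (∀ x ∈ K, ∀ i, 0 ≤ x i ∧ x i < 1) →
      (∀ e : Sp d, ‖e‖ = 1 → ∃ a : Sp d, ∀ t ∈ Icc (0 : ℝ) ℓ, a + t • e ∈ K) →
      Recognised (cubes b hb0 n K) ((b : ℝ) ^ (c * n)) →
      (b : ℝ) ^ ((d - ε) * n) ≤ ((cubes b hb0 n K).ncard : ℝ)) :=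
  ⟨maximal d b hd hb hb0 hε, kakeya_sets d b hd hb hb0 hε⟩

end Pool.Agent.Results.MP_5168f5_an.CircuitKakeya
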