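import Mathlib
import Pool.Agent.H749R2.Kak.Final

set_option autoImplicit false
open MeasureTheory

namespace Pool.Agent.Results.MP_5168f5_an.HolderSelections

/-- The exponent in the lower bound for the measure. -/
noncomputable def kappa (n : ℕ) (α : ℝ) : ℝ :=
  (((n:ℝ) - 1) + ((n:ℝ) - 1) * (n - 2) *
    (1 + (n - 1) * (1 - α) / (1 - (n - 1) * (1 - α)))) / α

/-- Let `n ≥ 3` and `(n-2)/(n-1) < α ≤ 1`. If a subset `K` of `ℝⁿ` contains, for every direction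
`d` in a cap of radius `r` of the unit sphere, the segment of length `2ℓ` in direction `d` centred
at `p d`, and if `p` is `α`-Hoelder on the cap with constant `H ≥ 1`, then the (outer) Lebesgue
measure of `K` is at least `c(n, α, r, ℓ) H ^ (-κ(n, α))`. -/
theorem result {n : ℕ} (hn : 3 ≤ n) {α : ℝ} (hα : ((n:ℝ) - 2) / (n - 1) < α) (hα1 : α ≤ 1)
    {r ℓ : ℝ} (hr : 0 < r) (hℓ : 0 < ℓ) :
    ∃ c : ℝ, 0 < c ∧ ∀ H : ℝ, 1 ≤ H → ∀ d₀ : EuclideanSpace ℝ (Fin n), ‖d₀‖ = 1 →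
      ∀ (K : Set (EuclideanSpace ℝ (Fin n)))
        (p : EuclideanSpace ℝ (Fin n) → EuclideanSpace ℝ (Fin n)),
        (∀ d d', ‖d‖ = 1 → ‖d'‖ = 1 → ‖d - d₀‖ < r → ‖d' - d₀‖ < r →
          ‖p d - p d'‖ ≤ H * ‖d - d'‖ ^ α) →
        (∀ d, ‖d‖ = 1 → ‖d - d₀‖ < r → ∀ s : ℝ, |s| ≤ ℓ → p d + s • d ∈ K) →
        ENNReal.ofReal (c * H ^ (-kappa n α)) ≤ volume K :=
  Pool.Agent.H749R2.Kak.kakeya_cap hn hα hα1 hr hℓ

end Pool.Agent.Results.MP_5168f5_an.HolderSelections
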