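import Pool.Agent.H742R2.Kk.Step
import Pool.Agent.H742R2.Kk.Planar
import Pool.Agent.H742R2.Kk.Sphere

set_option autoImplicit false

/-!
# MP_5168f5: the Kakeya maximal estimate for reducible families of lines, without regularity

A family of lines, one line `{a e + s e : s ∈ ℝ}` in each direction `e` of the unit sphere of
`ℝ^n`, is given by a measurable map `a`.  `lineMax δ a f e` is the supremum of the averages of
`|f|` over the `δ`-tubes of length one with axis on the line number `e`; by measurable selection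
the Kakeya maximal conjecture is the estimate below for *all* measurable `a`.

The family is *reducible* (`Reducible n a`) if `n ≤ 1`, or if there is a subspace `W` of
codimension two such that for every half-hyperplane `H` bounded by `W` the lines of the family with
direction in `H` lie in one hyperplane parallel to `H`, and form there (part of) a reducible family
of `ℝ^{n-1}`.  No regularity is assumed.  For reducible families the estimate holds at the
critical exponent `n` with a loss of `(1 + log (1/δ))^(n-1)`.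
-/

open MeasureTheory Set Filter Topology ENNReal NNReal Metric

namespace Pool.Agent.Results.MP_5168f5_an.ReducibleFamilies

open Pool.Agent.H742R2.Kk

/-- The closed tube of length `1` and radius `δ` with centre `b` and axis direction `e`. -/
def tube {n : ℕ} (δ : ℝ) (e b : E n) : Set (E n) :=
  {y | |inner ℝ (y - b) e| ≤ 1 / 2 ∧ ‖(y - b) - (inner ℝ (y - b) e : ℝ) • e‖ ≤ δ}

/-- Supremum of the averages of `|f|` over the `δ`-tubes with axis on the line number `e`. -/
noncomputable def lineMax {n : ℕ} (δ : ℝ) (a : E n → E n) (f : E n → ℝ) (e : E n) : ℝ≥0∞ :=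
  ⨆ s : ℝ, (volume (tube δ e (a e + s • e)))⁻¹ *
    ∫⁻ y in tube δ e (a e + s • e), ‖f y‖ₑ

theorem tube_subset {n : ℕ} (δ : ℝ) (e b : E n) (he : ‖e‖ = 1) (s : ℝ) :
    tube δ e (b + s • e) ⊆ tub δ e b ⌊inner ℝ (b + s • e) e - 1/2⌋
      ∪ tub δ e b (⌊inner ℝ (b + s • e) e - 1/2⌋ + 1) := by
  rintro y ⟨h1, h2⟩
  set c := b + s • e with hc
  have hf1 := Int.floor_le (inner ℝ c e - 1/2)
  have hf2 := Int.lt_floor_add_one (inner ℝ c e - 1/2)
  set k := ⌊inner ℝ c e - 1/2⌋ with hk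
  have h3 : (y - b) - (inner ℝ (y - b) e : ℝ) • e = (y - c) - (inner ℝ (y - c) e : ℝ) • e := by
    have h4 : y - b = (y - c) + s • e := by rw [hc]; abel
    rw [h4, inner_add_left, inner_smul_left, real_inner_self_eq_norm_sq, he]
    simp only [conj_trivial, one_pow, mul_one, add_smul]
    abel
  rw [inner_sub_left, abs_le] at h1
  by_cases h5 : inner ℝ y e ≤ (k:ℝ) + 1
  · left
    refine ⟨by linarith, h5, ?_⟩
    rw [h3, inner_sub_left]; rw [inner_sub_left] at h2; exact h2
  · right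
    push Not at h5
    refine ⟨by push_cast; linarith, by push_cast; linarith, ?_⟩
    rw [h3, inner_sub_left]; rw [inner_sub_left] at h2; exact h2

theorem lineMax_le {m : ℕ} {c : ℝ} (hc : 0 < c)
    (hvol : ∀ (δ : ℝ) (e a : E (m + 1)), 0 < δ → ‖e‖ = 1 →
      ENNReal.ofReal (c * δ ^ m) ≤ volume {y : E (m + 1) | |inner ℝ (y - a) e| ≤ 1 / 2 ∧
        ‖(y - a) - (inner ℝ (y - a) e : ℝ) • e‖ ≤ δ})
    {δ : ℝ} (hδ : 0 < δ) (a : E (m+1) → E (m+1)) (f : E (m+1) → ℝ) {e : E (m+1)} (he : ‖e‖ = 1) :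
    lineMax δ a f e ≤ ENNReal.ofReal (2 / c) * ⨆ k : ℤ, wav δ a k (fun y => ‖f y‖ₑ) e := by
  have hD0 : ENNReal.ofReal δ ^ m ≠ 0 := pow_ne_zero _ (by simpa using hδ)
  have hDt : ENNReal.ofReal δ ^ m ≠ ∞ := ENNReal.pow_ne_top ENNReal.ofReal_ne_top
  unfold lineMax
  apply iSup_le
  intro s
  set M := ⨆ k : ℤ, wav δ a k (fun y => ‖f y‖ₑ) e with hM
  have h1 : ∀ k : ℤ, ∫⁻ y in tub δ e (a e) k, ‖f y‖ₑ ≤ ENNReal.ofReal δ ^ m * M := by
    intro k
    calc ∫⁻ y in tub δ e (a e) k, ‖f y‖ₑ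
        = ENNReal.ofReal δ ^ m * wav δ a k (fun y => ‖f y‖ₑ) e := by
          unfold wav
          rw [← mul_assoc, ENNReal.mul_inv_cancel hD0 hDt, one_mul]
      _ ≤ _ := by
          gcongr
          exact le_iSup (fun k : ℤ => wav δ a k (fun y => ‖f y‖ₑ) e) k
  have h2 : ∫⁻ y in tube δ e (a e + s • e), ‖f y‖ₑ ≤ 2 * (ENNReal.ofReal δ ^ m * M) := by
    calc ∫⁻ y in tube δ e (a e + s • e), ‖f y‖ₑ
        ≤ ∫⁻ y in tub δ e (a e) ⌊inner ℝ (a e + s • e) e - 1/2⌋
          ∪ tub δ e (a e) (⌊inner ℝ (a e + s • e) e - 1/2⌋ + 1), ‖f y‖ₑ :=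
          lintegral_mono_set (tube_subset δ e (a e) he s)
      _ ≤ _ := lintegral_union_le _ _ _
      _ ≤ ENNReal.ofReal δ ^ m * M + ENNReal.ofReal δ ^ m * M := add_le_add (h1 _) (h1 _)
      _ = _ := by ring
  have h3 := hvol δ e (a e + s • e) hδ he
  have hcd : 0 < c * δ ^ m := by positivity
  calc (volume (tube δ e (a e + s • e)))⁻¹ * ∫⁻ y in tube δ e (a e + s • e), ‖f y‖ₑ
      ≤ (ENNReal.ofReal (c * δ ^ m))⁻¹ * (2 * (ENNReal.ofReal δ ^ m * M)) := by
        gcongr
        exact h3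
    _ = (ENNReal.ofReal (c * δ ^ m))⁻¹ * (ENNReal.ofReal (2 * δ ^ m)) * M := by
        have e1 : ENNReal.ofReal (2 * δ ^ m) = 2 * ENNReal.ofReal δ ^ m := by
          rw [ENNReal.ofReal_mul (by norm_num), ENNReal.ofReal_pow hδ.le]
          simp only [ENNReal.ofReal_ofNat]
        rw [e1]
        ring
    _ = ENNReal.ofReal (2 / c) * M := by
        congr 1
        rw [← ENNReal.ofReal_inv_of_pos hcd, ← ENNReal.ofReal_mul (by positivity)]
        congr 1
        field_simp

theorem lineMax_congr {n : ℕ} {δ : ℝ} (a : E n → E n) (e : E n) {f g : E n → ℝ}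
    (h : f =ᵐ[volume] g) : lineMax δ a f e = lineMax δ a g e := by
  unfold lineMax
  congr 1
  ext s
  congr 1
  apply lintegral_congr_ae
  filter_upwards [ae_restrict_of_ae h] with y hy
  rw [hy]

theorem main (m : ℕ) : ∃ C : ℝ, 0 < C ∧
    ∀ (a : E (m + 1) → E (m + 1)) (δ : ℝ) (f : E (m + 1) → ℝ),
      Reducible (m + 1) a → 0 < δ → δ < 1 → Measurable f →
      ∫⁻ e : sphere (0 : E (m + 1)) 1, lineMax δ a f e ^ (m + 1)
          ∂(volume : Measure (E (m + 1))).toSphere
        ≤ ENNReal.ofReal (C * (1 + Real.log (1 / δ)) ^ m) * ∫⁻ y, ‖f y‖ₑ ^ (m + 1) := by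
  obtain ⟨C, hC, hP⟩ := planar
  obtain ⟨D, hD, hK⟩ := kb_all hC hP m
  obtain ⟨c, hc, hvol⟩ := volume_tube m
  refine ⟨(2 / c) ^ (m+1) * ((m+1) * D), by positivity, ?_⟩
  intro a δ f ha hδ hδ1 hf
  have hlog : 0 ≤ Real.log (1 / δ) := Real.log_nonneg (by rw [le_div_iff₀ hδ]; linarith)
  have hF : Measurable (fun y => ‖f y‖ₑ) := hf.enorm
  set G : E (m+1) → ℝ≥0∞ := fun x => (⨆ k : ℤ, wav δ a k (fun y => ‖f y‖ₑ) x) ^ (m+1) with hG
  have hGm : Measurable G := by
    apply Measurable.pow_const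
    apply Measurable.iSup
    intro k
    have h0 : Measurable (Function.uncurry (fun (_ : ℝ) (y : E (m+1)) => ‖f y‖ₑ)) :=
      hF.comp measurable_snd
    have h1 : Measurable (fun x : ℝ × E (m+1) => wav δ a k (fun y => ‖f y‖ₑ) x.2) :=
      measurable_wav (δ := δ) ha.measurable k h0
    exact h1.comp (measurable_prodMk_left (x := (0:ℝ)))
  have h1 := hK δ a hδ hδ1 ha (fun y => ‖f y‖ₑ) hF
  have h2 := sphere_le_ball m hGm
  calc ∫⁻ e : sphere (0 : E (m + 1)) 1, lineMax δ a f e ^ (m + 1)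
          ∂(volume : Measure (E (m + 1))).toSphere
      ≤ ∫⁻ e : sphere (0 : E (m + 1)) 1, ENNReal.ofReal (2 / c) ^ (m+1) * G e
          ∂(volume : Measure (E (m + 1))).toSphere := by
        apply lintegral_mono
        intro e
        have he : ‖(e : E (m+1))‖ = 1 := by simp
        show lineMax δ a f e ^ (m+1) ≤ ENNReal.ofReal (2 / c) ^ (m+1) * G e
        rw [hG, ← mul_pow]
        exact pow_le_pow_left' (lineMax_le hc hvol hδ a f he) _
    _ = ENNReal.ofReal (2 / c) ^ (m+1) * ∫⁻ e : sphere (0 : E (m + 1)) 1, G e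
          ∂(volume : Measure (E (m + 1))).toSphere := by
        rw [lintegral_const_mul' _ _ (ENNReal.pow_ne_top ENNReal.ofReal_ne_top)]
    _ ≤ ENNReal.ofReal (2 / c) ^ (m+1) * ((m + 1) *
          (ENNReal.ofReal (D * (1 + Real.log (1 / δ)) ^ m) * ∫⁻ y, ‖f y‖ₑ ^ (m + 1))) := by
        gcongr
        exact h2.trans (by gcongr)
    _ = _ := by
        have e1 : (2 / c) ^ (m+1) * ((m+1) * D) * (1 + Real.log (1 / δ)) ^ m
            = (2 / c) ^ (m+1) * ((m+1) * (D * (1 + Real.log (1 / δ)) ^ m)) := by ring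
        rw [e1, ENNReal.ofReal_mul (p := (2 / c) ^ (m+1)) (by positivity),
          ENNReal.ofReal_mul (p := (m:ℝ) + 1) (by positivity), ENNReal.ofReal_pow (by positivity)]
        have e2 : ENNReal.ofReal ((m:ℝ) + 1) = (m:ℝ≥0∞) + 1 := by
          rw [ENNReal.ofReal_add (by positivity) (by norm_num)]
          simp
        rw [e2]
        ring

/-- **Kakeya maximal estimate for reducible families of lines**, in every dimension
`n = m + 2 ≥ 2`, over the whole sphere of directions, at the exponent `n`, with a loss of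
`(1 + log (1/δ))^(n-1)`, without any regularity of the family. -/
theorem result (m : ℕ) : ∃ C : ℝ, 0 < C ∧
    ∀ (a : E (m + 2) → E (m + 2)) (δ : ℝ) (f : E (m + 2) → ℝ),
      Reducible (m + 2) a → 0 < δ → δ < 1 → AEMeasurable f volume →
      ∫⁻ e : sphere (0 : E (m + 2)) 1, lineMax δ a f e ^ (m + 2)
          ∂(volume : Measure (E (m + 2))).toSphere
        ≤ ENNReal.ofReal (C * (1 + Real.log (1 / δ)) ^ (m + 1)) * ∫⁻ y, ‖f y‖ₑ ^ (m + 2) := by
  obtain ⟨C, hC, h⟩ := main (m + 1)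
  refine ⟨C, hC, ?_⟩
  intro a δ f ha hδ hδ1 hf
  have h1 := h a δ (hf.mk f) ha hδ hδ1 hf.measurable_mk
  have e1 : ∀ e, lineMax δ a f e = lineMax δ a (hf.mk f) e :=
    fun e => lineMax_congr a e hf.ae_eq_mk
  have e2 : ∫⁻ y, ‖f y‖ₑ ^ (m + 2) = ∫⁻ y, ‖hf.mk f y‖ₑ ^ (m + 2) := by
    apply lintegral_congr_ae
    filter_upwards [hf.ae_eq_mk] with y hy
    rw [hy]
  simp only [e1]
  rw [e2]
  exact h1

end Pool.Agent.Results.MP_5168f5_an.ReducibleFamilies
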