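import Pool.Agent.H803R2.KakFTO
import Pool.Agent.H803R2.KakFibre

set_option autoImplicit false

/-!
# MP_5168f5: the Kakeya maximal estimate for families of lines depending smoothly on the direction

Notation as in `FiniteToOne`: the line number `v` (`|v| ≤ 1`) is `{(b v + s v, s) : s ∈ ℝ}` and
`lineMax δ b f v` is the supremum of the averages of `|f|` over the `δ`-tubes of length one with
axis on this line.  If `b` is of class `C^k` in the sense of Taylor approximation (constant `A`),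
then the Kakeya maximal estimate holds in `L^n`, `n = d + 1`, with the loss
`(A/δ)^(d/k) (1 + log (1/δ))^d`.  In particular smooth families satisfy it with the loss `δ^(-ε)`
for every `ε > 0`.
-/

open MeasureTheory Set Filter Topology ENNReal NNReal Metric

namespace Pool.Agent.Results.MP_5168f5_an.SmoothFamilies

open Pool.Agent.H803R2.Kak Pool.Agent.H803R2.KakFTO

/-- The polynomial map `ℝ^d → ℝ^d` with components `P i`. -/
noncomputable def polyMap {d : ℕ} (P : Fin d → MvPolynomial (Fin d) ℝ) (v : Vec d) : Vec d :=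
  WithLp.toLp 2 (fun i => MvPolynomial.eval (fun j => v j) (P i))

/-- `b` is of class `C^k` on `B` in the sense of Taylor approximation, with constant `A`: at every
`v₀ ∈ B` there is a polynomial map of degree `< k` with `|b v - P v| ≤ A |v - v₀|^k` on `B`. -/
def TaylorClass {d : ℕ} (k : ℕ) (A : ℝ) (B : Set (Vec d)) (b : Vec d → Vec d) : Prop :=
  ∀ v₀ ∈ B, ∃ P : Fin d → MvPolynomial (Fin d) ℝ, (∀ i, (P i).totalDegree < k) ∧
    ∀ v ∈ B, ‖b v - polyMap P v‖ ≤ A * ‖v - v₀‖ ^ k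

variable {d : ℕ}

theorem eval_mem_Pol {k : ℕ} {p : MvPolynomial (Fin d) ℝ} (hp : p.totalDegree ≤ k) :
    (fun v : Vec d => MvPolynomial.eval (fun j => v j) p) ∈ Pol d k := by
  have h : (fun v : Vec d => MvPolynomial.eval (fun j => v j) p)
      = ∑ m ∈ p.support, MvPolynomial.coeff m p • (fun v : Vec d => ∏ i, v i ^ (m i)) := by
    ext v
    rw [MvPolynomial.eval_eq']
    simp [Finset.sum_apply]
  rw [h]
  apply Submodule.sum_mem
  intro m hm
  apply Submodule.smul_mem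
  apply mono_mem
  intro i
  calc m i ≤ m.sum (fun _ e => e) := by
        by_cases hi : i ∈ m.support
        · exact Finset.single_le_sum (f := fun j => m j) (fun _ _ => Nat.zero_le _) hi
        · rw [Finsupp.notMem_support_iff.mp hi]; exact Nat.zero_le _
    _ ≤ p.totalDegree := MvPolynomial.le_totalDegree hm
    _ ≤ k := hp

theorem differentiable_of_mem_Pol {k : ℕ} {g : Vec d → ℝ} (hg : g ∈ Pol d k) :
    Differentiable ℝ g := by
  induction hg using Submodule.span_induction with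
  | mem g hg =>
    obtain ⟨m, rfl⟩ := hg
    fun_prop
  | zero => exact differentiable_const 0
  | add f g _ _ hf hg => exact hf.add hg
  | smul c f _ hf => exact hf.const_smul c

theorem differentiable_polyMap {k : ℕ} {P : Fin d → MvPolynomial (Fin d) ℝ}
    (hP : ∀ i, (P i).totalDegree ≤ k) : Differentiable ℝ (polyMap P) := by
  rw [differentiable_euclidean]
  intro i
  exact differentiable_of_mem_Pol (eval_mem_Pol (hP i))

/-- The generic multiplicity of the section maps of a polynomial family. -/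
theorem poly_mult (hd : 1 ≤ d) {k : ℕ} (hk : 1 ≤ k) {P : Fin d → MvPolynomial (Fin d) ℝ}
    (hP : ∀ i, (P i).totalDegree ≤ k) (B : Set (Vec d)) :
    ∀ᵐ t : ℝ, ∀ᵐ y : Vec d, {v | v ∈ B ∧ polyMap P v + t • v = y ∧
      (fderiv ℝ (polyMap P) v + t • ContinuousLinearMap.id ℝ (Vec d)).det ≠ 0}.encard
        ≤ ((((1 + d * k) ^ d) ^ d : ℕ) : ℕ∞) := by
  apply Filter.Eventually.of_forall
  intro t
  have h := ae_fibre_le hd k hk (fun v => polyMap P v + t • v) (by
    intro j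
    have h1 : (fun v : Vec d => (polyMap P v + t • v) j)
        = (fun v : Vec d => MvPolynomial.eval (fun j => v j) (P j)) + t • (fun v : Vec d => v j) := by
      ext v
      rfl
    rw [h1]
    exact Submodule.add_mem _ (eval_mem_Pol (hP j)) (Submodule.smul_mem _ _ (coord_mem_Pol j hk)))
  filter_upwards [h] with y hy
  refine le_trans (Set.encard_le_encard ?_) hy
  rintro v ⟨_, h2, _⟩
  exact h2

/-- Comparison of mollifications around nearby points. -/
theorem moll_le_moll {r r' : ℝ} (hr : 0 < r) (hr' : r ≤ r') (f : Vec d × ℝ → ℝ≥0∞) {y y' : Vec d}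
    (hy : ‖y - y'‖ ≤ r' - r) (t : ℝ) :
    moll r f (y, t) ≤ (volume (closedBall (0:Vec d) r))⁻¹ * volume (closedBall (0:Vec d) r')
      * moll r' f (y', t) := by
  have hV0 := (vol_pos (d := d) (r := r') (by linarith)).ne'
  have hVt := (vol_lt_top (d := d) (r := r')).ne
  unfold moll
  rw [mul_assoc, ← mul_assoc (volume (closedBall (0:Vec d) r')), ENNReal.mul_inv_cancel hV0 hVt,
    one_mul]
  refine mul_le_mul_right ?_ _
  rw [← lintegral_indicator measurableSet_closedBall, ← lintegral_indicator measurableSet_closedBall]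
  have h1 : ∫⁻ w : Vec d, (closedBall (0:Vec d) r).indicator (fun w => f (y + w, t)) w
      = ∫⁻ w : Vec d, (closedBall (0:Vec d) r).indicator (fun w => f (y + w, t)) (-y + w) :=
    (lintegral_add_left_eq_self _ (-y)).symm
  have h2 : ∫⁻ w : Vec d, (closedBall (0:Vec d) r').indicator (fun w => f (y' + w, t)) w
      = ∫⁻ w : Vec d, (closedBall (0:Vec d) r').indicator (fun w => f (y' + w, t)) (-y' + w) :=
    (lintegral_add_left_eq_self _ (-y')).symm
  rw [h1, h2]
  apply lintegral_mono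
  intro w
  by_cases hw : -y + w ∈ closedBall (0:Vec d) r
  · have hw' : -y' + w ∈ closedBall (0:Vec d) r' := by
      simp only [mem_closedBall, dist_zero_right] at hw ⊢
      calc ‖-y' + w‖ = ‖(-y + w) + (y - y')‖ := by congr 1; abel
        _ ≤ ‖-y + w‖ + ‖y - y'‖ := norm_add_le _ _
        _ ≤ r' := by linarith
    simp only
    rw [indicator_of_mem hw, indicator_of_mem hw']
    simp
  · simp only
    rw [indicator_of_notMem hw]
    exact zero_le

/-- The estimate on a set of directions on which `b` is `δ`-close to a polynomial map. -/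
theorem poly_piece (hd : 1 ≤ d) {k : ℕ} (hk : 1 ≤ k) {P : Fin d → MvPolynomial (Fin d) ℝ}
    (hP : ∀ i, (P i).totalDegree ≤ k) {B : Set (Vec d)} (hB : MeasurableSet B)
    (hB1 : B ⊆ closedBall 0 1) {b : Vec d → Vec d} {δ : ℝ} (hδ : 0 < δ) (hδ1 : δ < 1)
    (hb : ∀ v ∈ B, ‖b v - polyMap P v‖ ≤ δ) {f : Space d → ℝ} (hf : Measurable f) :
    ∫⁻ v in B, lineMax δ b f v ^ (d + 1)
      ≤ (4 * 16 ^ d) ^ (d + 1) * (2 ^ (d + 1) *
        ((2 * d * ENNReal.ofReal (Real.log (1 + 3/(2*δ))))^d * (((1 + d * k) ^ d) ^ d : ℕ) + d^d))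
        * ∫⁻ y, ‖f y‖ₑ ^ (d + 1) := by
  have hmp := WithLp.volume_preserving_toLp (Vec d) ℝ
  have hf2 : Measurable (fun p : Vec d × ℝ => ‖f (WithLp.toLp 2 p)‖ₑ) :=
    (hf.comp hmp.measurable).enorm
  have hint := integrated hd hB hB1 (b := polyMap P)
    (fun v _ => (differentiable_polyMap hP) v) (poly_mult hd hk hP B)
    (δ := 2 * δ) (by linarith) hf2
  have hS : ∫⁻ p : Vec d × ℝ, ‖f (WithLp.toLp 2 p)‖ₑ ^ (d+1) = ∫⁻ y : Space d, ‖f y‖ₑ ^ (d + 1) :=
    hmp.lintegral_comp (f := fun y : Space d => ‖f y‖ₑ ^ (d + 1)) (hf.enorm.pow_const _)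
  rw [hS] at hint
  set S := ∫⁻ y : Space d, ‖f y‖ₑ ^ (d + 1) with hSdef
  set M : Vec d → ℝ≥0∞ := fun v => ⨆ h : ℝ, (∫⁻ t in Icc h (h+3),
    moll (2*(2*δ)) (fun p : Vec d × ℝ => ‖f (WithLp.toLp 2 p)‖ₑ)
      (polyMap P v + t • v, t)) ^ (d+1) with hM
  have hpt : ∀ v ∈ B, lineMax δ b f v ^ (d + 1) ≤ (4 * 16 ^ d) ^ (d + 1) * M v := by
    intro v hv
    have hv1 : ‖v‖ ≤ 1 := by simpa using hB1 hv
    have hcomp : ∀ t : ℝ, moll (2*δ) (fun p : Vec d × ℝ => ‖f (WithLp.toLp 2 p)‖ₑ)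
        (b v + t • v, t) ≤ 2 ^ d * moll (2*(2*δ))
          (fun p : Vec d × ℝ => ‖f (WithLp.toLp 2 p)‖ₑ) (polyMap P v + t • v, t) := by
      intro t
      have h1 := moll_le_moll (r := 2*δ) (r' := 2*(2*δ)) (by linarith) (by linarith)
        (fun p : Vec d × ℝ => ‖f (WithLp.toLp 2 p)‖ₑ) (y := b v + t • v)
        (y' := polyMap P v + t • v) (by
          have : b v + t • v - (polyMap P v + t • v) = b v - polyMap P v := by abel
          rw [this]
          have := hb v hv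
          linarith) t
      have h2 : (volume (closedBall (0:Vec d) (2*δ)))⁻¹ * volume (closedBall (0:Vec d) (2*(2*δ)))
          = 2 ^ d := by
        have hV0 := (vol_pos (d := d) (r := 2 * δ) (by linarith)).ne'
        have hVt := (vol_lt_top (d := d) (r := 2 * δ)).ne
        have h4 : volume (closedBall (0:Vec d) (2*(2*δ)))
            = 2 ^ d * volume (closedBall (0:Vec d) (2*δ)) := by
          have h5 : ENNReal.ofReal (2*(2*δ)) = 2 * ENNReal.ofReal (2*δ) := by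
            rw [ENNReal.ofReal_mul (p := 2) (q := 2 * δ) (by norm_num)]
            simp
          rw [vol_ball_scale (d := d) (r := 2*(2*δ)) (by linarith),
            vol_ball_scale (d := d) (r := 2*δ) (by linarith), h5, mul_pow, mul_assoc]
        rw [h4, mul_comm, mul_assoc, ENNReal.mul_inv_cancel hV0 hVt, mul_one]
      rw [h2] at h1
      exact h1
    calc lineMax δ b f v ^ (d + 1) ≤ ((4 * 8 ^ d) * ⨆ h : ℝ, ∫⁻ t in Icc h (h + 3),
          moll (2*δ) (fun p : Vec d × ℝ => ‖f (WithLp.toLp 2 p)‖ₑ) (b v + t • v, t)) ^ (d + 1) := by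
          gcongr
          exact lineMax_le hδ hδ1 b hv1 hf
      _ ≤ ((4 * 8 ^ d) * (2 ^ d * ⨆ h : ℝ, ∫⁻ t in Icc h (h + 3),
          moll (2*(2*δ)) (fun p : Vec d × ℝ => ‖f (WithLp.toLp 2 p)‖ₑ)
            (polyMap P v + t • v, t))) ^ (d + 1) := by
          gcongr
          apply iSup_le
          intro h
          calc ∫⁻ t in Icc h (h + 3),
                moll (2*δ) (fun p : Vec d × ℝ => ‖f (WithLp.toLp 2 p)‖ₑ) (b v + t • v, t)
              ≤ ∫⁻ t in Icc h (h + 3), 2 ^ d * moll (2*(2*δ))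
                (fun p : Vec d × ℝ => ‖f (WithLp.toLp 2 p)‖ₑ) (polyMap P v + t • v, t) :=
                lintegral_mono hcomp
            _ = 2 ^ d * ∫⁻ t in Icc h (h + 3), moll (2*(2*δ))
                (fun p : Vec d × ℝ => ‖f (WithLp.toLp 2 p)‖ₑ) (polyMap P v + t • v, t) := by
                rw [lintegral_const_mul' _ _ (ENNReal.pow_ne_top (by simp))]
            _ ≤ _ := by
                gcongr
                exact le_iSup (fun h : ℝ => ∫⁻ t in Icc h (h + 3), moll (2*(2*δ))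
                  (fun p : Vec d × ℝ => ‖f (WithLp.toLp 2 p)‖ₑ) (polyMap P v + t • v, t)) h
      _ = (4 * 16 ^ d) ^ (d + 1) * M v := by
          rw [hM]
          simp only
          rw [← ENNReal.iSup_pow, ← mul_pow]
          congr 1
          have : (16:ℝ≥0∞) ^ d = 8 ^ d * 2 ^ d := by rw [← mul_pow]; norm_num
          rw [this]
          ring
  calc ∫⁻ v in B, lineMax δ b f v ^ (d + 1)
      ≤ ∫⁻ v in B, (4 * 16 ^ d) ^ (d + 1) * M v := setLIntegral_mono' hB hpt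
    _ = (4 * 16 ^ d) ^ (d + 1) * ∫⁻ v in B, M v := by
        rw [lintegral_const_mul']
        exact ENNReal.pow_ne_top (ENNReal.mul_ne_top (by simp) (ENNReal.pow_ne_top (by simp)))
    _ ≤ (4 * 16 ^ d) ^ (d + 1) * (2 ^ (d + 1) *
          ((2 * d * ENNReal.ofReal (Real.log (1 + 3/(2*δ))))^d * (((1 + d * k) ^ d) ^ d : ℕ) + d^d)
            * S) := by gcongr
    _ = _ := by ring

/-- index of the cube of side `h` containing `v` -/
noncomputable def idx (h : ℝ) (v : Vec d) : Fin d → ℤ := fun i => ⌊v i / h⌋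

theorem measurable_idx (h : ℝ) : Measurable (idx (d := d) h) := by
  apply measurable_pi_lambda
  intro i
  apply Int.measurable_floor.comp
  have : Measurable (fun v : Vec d => v i) := by fun_prop
  exact this.div_const h

theorem norm_sub_le_of_idx {h : ℝ} (hh : 0 < h) {v w : Vec d} (hvw : idx h v = idx h w) :
    ‖v - w‖ ≤ d * h := by
  rw [EuclideanSpace.norm_eq]
  apply Real.sqrt_le_iff.mpr
  refine ⟨by positivity, ?_⟩
  have h1 : ∀ i, ‖(v - w) i‖ ^ 2 ≤ h ^ 2 := by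
    intro i
    have h2 : ⌊v i / h⌋ = ⌊w i / h⌋ := congrFun hvw i
    have h3 := Int.abs_sub_lt_one_of_floor_eq_floor h2
    have h3' : |(v i - w i) / h| < 1 := by rw [_root_.sub_div]; exact h3
    have h4 : |v i - w i| < h := by
      rw [abs_div, abs_of_pos hh, div_lt_one hh] at h3'
      exact h3'
    rw [Real.norm_eq_abs]
    have h5 : (v - w) i = v i - w i := rfl
    rw [h5]
    exact pow_le_pow_left₀ (abs_nonneg _) h4.le 2
  calc ∑ i, ‖(v - w) i‖ ^ 2 ≤ ∑ _i : Fin d, h ^ 2 := Finset.sum_le_sum (fun i _ => h1 i)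
    _ = d * h ^ 2 := by simp
    _ ≤ (d * h) ^ 2 := by
        rw [mul_pow]
        apply mul_le_mul_of_nonneg_right _ (by positivity)
        rcases Nat.eq_zero_or_pos d with h0 | h0
        · subst h0; simp
        · have : (1:ℝ) ≤ d := by exact_mod_cast h0
          nlinarith

theorem idx_mem {h : ℝ} (hh : 0 < h) {v : Vec d} (hv : ‖v‖ ≤ 1) :
    idx h v ∈ Fintype.piFinset (fun _ : Fin d => Finset.Icc (-⌈1 / h⌉) ⌈1 / h⌉) := by
  rw [Fintype.mem_piFinset]
  intro i
  have h1 : |v i| ≤ 1 := by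
    have := PiLp.norm_apply_le v i
    rw [Real.norm_eq_abs] at this
    linarith
  rw [abs_le] at h1
  rw [Finset.mem_Icc]
  constructor
  · show -⌈1 / h⌉ ≤ ⌊v i / h⌋
    rw [← Int.floor_neg]
    apply Int.floor_le_floor
    rw [← neg_div]
    gcongr
    exact h1.1
  · show ⌊v i / h⌋ ≤ ⌈1 / h⌉
    refine (Int.floor_le_ceil _).trans (Int.ceil_le_ceil ?_)
    gcongr
    exact h1.2

theorem card_idx_le {h : ℝ} (hh : 0 < h) (hh1 : h ≤ 1) :
    ((Fintype.piFinset (fun _ : Fin d => Finset.Icc (-⌈1 / h⌉) ⌈1 / h⌉)).card : ℝ)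
      ≤ (5 / h) ^ d := by
  rw [Fintype.card_piFinset]
  simp only [Int.card_Icc, Finset.prod_const, Finset.card_univ, Fintype.card_fin]
  push_cast
  apply pow_le_pow_left₀ (by positivity)
  have h1 : (1:ℝ) ≤ 1 / h := by rw [le_div_iff₀ hh]; linarith
  have h2 : (⌈1 / h⌉ : ℝ) < 1 / h + 1 := Int.ceil_lt_add_one _
  have h3 : 0 ≤ ⌈1 / h⌉ := by
    apply Int.ceil_nonneg
    positivity
  have h4 : 0 ≤ ⌈1 / h⌉ + 1 - -⌈1 / h⌉ := by omega
  have h5 : (((⌈1 / h⌉ + 1 - -⌈1 / h⌉).toNat : ℕ) : ℝ) = ((⌈1 / h⌉ + 1 - -⌈1 / h⌉ : ℤ) : ℝ) := by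
    have : (((⌈1 / h⌉ + 1 - -⌈1 / h⌉).toNat : ℕ) : ℤ) = ⌈1 / h⌉ + 1 - -⌈1 / h⌉ :=
      Int.toNat_of_nonneg h4
    exact_mod_cast this
  rw [h5]
  push_cast
  have h6 : 5 / h = 5 * (1 / h) := by ring
  rw [h6]
  linarith

/-- The constant of the estimate on one piece. -/
noncomputable def cst (d k : ℕ) : ℝ :=
  (8 * 16 ^ d) ^ (d + 1) * ((4 * d) ^ d * (((1 + d * k) ^ d) ^ d : ℕ) + d ^ d)

/-- The estimate on one piece with real constants. -/
theorem poly_piece' (hd : 1 ≤ d) {k : ℕ} (hk : 1 ≤ k) {P : Fin d → MvPolynomial (Fin d) ℝ}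
    (hP : ∀ i, (P i).totalDegree ≤ k) {B : Set (Vec d)} (hB : MeasurableSet B)
    (hB1 : B ⊆ closedBall 0 1) {b : Vec d → Vec d} {δ : ℝ} (hδ : 0 < δ) (hδ1 : δ < 1)
    (hb : ∀ v ∈ B, ‖b v - polyMap P v‖ ≤ δ) {f : Space d → ℝ} (hf : Measurable f) :
    ∫⁻ v in B, lineMax δ b f v ^ (d + 1)
      ≤ ENNReal.ofReal (cst d k * (1 + Real.log (1 / δ)) ^ d) * ∫⁻ y, ‖f y‖ₑ ^ (d + 1) := by
  refine (poly_piece hd hk hP hB hB1 hδ hδ1 hb hf).trans ?_
  refine mul_le_mul_left ?_ _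
  have hlog : 0 ≤ Real.log (1 / δ) := Real.log_nonneg (by rw [le_div_iff₀ hδ]; linarith)
  have hlog2 : Real.log (1 + 3 / (2 * δ)) ≤ 2 * (1 + Real.log (1 / δ)) := by
    have h1 : 1 + 3 / (2 * δ) ≤ 4 * (1 / δ) := by
      have : 1 ≤ 1 / δ := by rw [le_div_iff₀ hδ]; linarith
      calc 1 + 3 / (2 * δ) = 1 + (3/2) * (1 / δ) := by field_simp
        _ ≤ 4 * (1 / δ) := by linarith
    have h2 : Real.log 4 ≤ 2 := by
      have h3 : (4:ℝ) = 2 ^ 2 := by norm_num
      rw [h3, Real.log_pow]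
      have := Real.log_two_lt_d9
      push_cast
      linarith
    calc Real.log (1 + 3 / (2 * δ)) ≤ Real.log (4 * (1 / δ)) := Real.log_le_log (by positivity) h1
      _ = Real.log 4 + Real.log (1 / δ) := Real.log_mul (by norm_num) (by positivity)
      _ ≤ 2 * (1 + Real.log (1 / δ)) := by linarith
  set N : ℕ := ((1 + d * k) ^ d) ^ d with hN
  have e1 : (2 * d * ENNReal.ofReal (Real.log (1 + 3/(2*δ))) : ℝ≥0∞)
      = ENNReal.ofReal (2 * d * Real.log (1 + 3/(2*δ))) := by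
    rw [ENNReal.ofReal_mul (by positivity), ENNReal.ofReal_mul (by positivity)]
    simp
  have hl0 : 0 ≤ Real.log (1 + 3/(2*δ)) := Real.log_nonneg (by
    have : 0 < 3 / (2*δ) := by positivity
    linarith)
  have e2 : (4 * 16 ^ d : ℝ≥0∞) ^ (d + 1) * (2 ^ (d + 1) *
    ((2 * d * ENNReal.ofReal (Real.log (1 + 3/(2*δ))))^d * N + d^d))
      = ENNReal.ofReal ((4 * 16 ^ d) ^ (d + 1) * (2 ^ (d + 1) *
        ((2 * d * Real.log (1 + 3/(2*δ))) ^ d * N + d ^ d))) := by
    have h0 : (0:ℝ) ≤ (2 * d * Real.log (1 + 3/(2*δ))) ^ d := by positivity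
    rw [ofReal_comb (by positivity) (by positivity) h0 (by positivity) (by positivity), e1,
      ENNReal.ofReal_pow (p := 2 * d * Real.log (1 + 3/(2*δ))) (by positivity) d]
    have a1 : ENNReal.ofReal ((4 * 16 ^ d) ^ (d + 1)) = (4 * 16 ^ d : ℝ≥0∞) ^ (d + 1) := by
      rw [ENNReal.ofReal_pow (by positivity), ENNReal.ofReal_mul (by positivity),
        ENNReal.ofReal_pow (by positivity)]
      simp
    have a2 : ENNReal.ofReal (2 ^ (d + 1)) = (2 : ℝ≥0∞) ^ (d + 1) := by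
      rw [ENNReal.ofReal_pow (by positivity)]
      simp
    have a3 : ENNReal.ofReal ((d:ℝ) ^ d) = (d : ℝ≥0∞) ^ d := by
      rw [ENNReal.ofReal_pow (by positivity)]
      simp
    have a4 : ENNReal.ofReal (N:ℝ) = (N : ℝ≥0∞) := by simp
    rw [a1, a2, a3, a4]
  rw [e2]
  apply ENNReal.ofReal_le_ofReal
  rw [cst, ← hN]
  set l := 1 + Real.log (1 / δ) with hl
  have hl1 : 1 ≤ l := by linarith
  have b1 : (2 * d * Real.log (1 + 3/(2*δ))) ^ d ≤ (4 * d) ^ d * l ^ d := by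
    rw [← mul_pow]
    apply pow_le_pow_left₀ (by positivity)
    calc 2 * d * Real.log (1 + 3/(2*δ)) ≤ 2 * d * (2 * l) := by gcongr
      _ = 4 * d * l := by ring
  have b2 : (d:ℝ) ^ d ≤ d ^ d * l ^ d := by
    have := one_le_pow₀ (n := d) hl1
    have h0 : (0:ℝ) ≤ (d:ℝ) ^ d := by positivity
    nlinarith
  calc (4 * 16 ^ d : ℝ) ^ (d + 1) * (2 ^ (d + 1) *
        ((2 * d * Real.log (1 + 3/(2*δ))) ^ d * N + d ^ d))
      ≤ (4 * 16 ^ d) ^ (d + 1) * (2 ^ (d + 1) *
        (((4 * d) ^ d * l ^ d) * N + d ^ d * l ^ d)) := by gcongr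
    _ = (8 * 16 ^ d) ^ (d + 1) * ((4 * d) ^ d * N + d ^ d) * l ^ d := by
        have : (8 * 16 ^ d : ℝ) = (4 * 16 ^ d) * 2 := by ring
        rw [this, mul_pow _ (2:ℝ)]
        ring

/-- The main estimate for measurable `f`. -/
theorem main_measurable (hd : 1 ≤ d) {k : ℕ} (hk : 1 ≤ k) {A : ℝ} (hA : 1 ≤ A) {B : Set (Vec d)}
    (hB : MeasurableSet B) (hB1 : B ⊆ closedBall 0 1) {b : Vec d → Vec d}
    (hb : TaylorClass k A B b) {δ : ℝ} (hδ : 0 < δ) (hδ1 : δ < 1) {f : Space d → ℝ}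
    (hf : Measurable f) :
    ∫⁻ v in B, lineMax δ b f v ^ (d + 1)
      ≤ ENNReal.ofReal ((5 * d) ^ d * cst d k * (A / δ) ^ ((d:ℝ) / k)
          * (1 + Real.log (1 / δ)) ^ d) * ∫⁻ y, ‖f y‖ₑ ^ (d + 1) := by
  classical
  have hd' : (1:ℝ) ≤ d := by exact_mod_cast hd
  have hk' : (1:ℝ) ≤ k := by exact_mod_cast hk
  have hA0 : 0 < A := by linarith
  have hq0 : 0 < δ / A := by positivity
  have hq1 : δ / A ≤ 1 := by rw [div_le_one hA0]; linarith
  set ρ : ℝ := (δ / A) ^ ((1:ℝ) / k) with hρ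
  have hρ0 : 0 < ρ := Real.rpow_pos_of_pos hq0 _
  have hρ1 : ρ ≤ 1 := Real.rpow_le_one hq0.le hq1 (by positivity)
  have hρk : ρ ^ k = δ / A := by
    rw [hρ, ← Real.rpow_natCast, ← Real.rpow_mul hq0.le, one_div, inv_mul_cancel₀ (by positivity),
      Real.rpow_one]
  set h : ℝ := ρ / d with hh
  have hh0 : 0 < h := by positivity
  have hh1 : h ≤ 1 := by
    rw [hh, div_le_one (by linarith)]
    linarith
  have hdh : d * h = ρ := by rw [hh]; field_simp
  set T := Fintype.piFinset (fun _ : Fin d => Finset.Icc (-⌈1 / h⌉) ⌈1 / h⌉) with hT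
  set S := ∫⁻ y, ‖f y‖ₑ ^ (d + 1) with hS
  set K : ℝ≥0∞ := ENNReal.ofReal (cst d k * (1 + Real.log (1 / δ)) ^ d) with hK
  have hpiece : ∀ m : Fin d → ℤ, ∫⁻ v in B ∩ {v | idx h v = m}, lineMax δ b f v ^ (d + 1)
      ≤ K * S := by
    intro m
    rcases (B ∩ {v | idx h v = m}).eq_empty_or_nonempty with he | ⟨v₀, hv₀, hv₀m⟩
    · rw [he]; simp
    · obtain ⟨P, hP, hPb⟩ := hb v₀ hv₀
      have hm : MeasurableSet (B ∩ {v : Vec d | idx h v = m}) :=
        hB.inter (measurable_idx h (measurableSet_singleton m))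
      apply poly_piece' hd hk (fun i => (hP i).le) hm (inter_subset_left.trans hB1) hδ hδ1 _ hf
      rintro v ⟨hv, hvm⟩
      refine (hPb v hv).trans ?_
      have h1 : ‖v - v₀‖ ≤ ρ := by
        rw [← hdh]
        exact norm_sub_le_of_idx hh0 (hvm.trans hv₀m.symm)
      calc A * ‖v - v₀‖ ^ k ≤ A * ρ ^ k := by gcongr
        _ = δ := by rw [hρk]; field_simp
  have hcov : B ⊆ ⋃ m : T, B ∩ {v | idx h v = (m : Fin d → ℤ)} := by
    intro v hv
    rw [mem_iUnion]
    exact ⟨⟨idx h v, idx_mem hh0 (by simpa using hB1 hv)⟩, hv, rfl⟩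
  have hcard : (T.card : ℝ) ≤ (5 * d) ^ d * (A / δ) ^ ((d:ℝ) / k) := by
    refine (card_idx_le hh0 hh1).trans (le_of_eq ?_)
    have h1 : 5 / h = (5 * d) * ρ⁻¹ := by rw [hh]; field_simp
    rw [h1, mul_pow]
    congr 1
    have h2 : A / δ = (δ / A)⁻¹ := by rw [inv_div]
    rw [h2, hρ, Real.inv_rpow hq0.le, inv_pow, ← Real.rpow_natCast, ← Real.rpow_mul hq0.le]
    congr 2
    field_simp
  calc ∫⁻ v in B, lineMax δ b f v ^ (d + 1)
      ≤ ∫⁻ v in ⋃ m : T, B ∩ {v | idx h v = (m : Fin d → ℤ)}, lineMax δ b f v ^ (d + 1) :=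
        lintegral_mono_set hcov
    _ ≤ ∑' m : T, ∫⁻ v in B ∩ {v | idx h v = (m : Fin d → ℤ)}, lineMax δ b f v ^ (d + 1) :=
        lintegral_iUnion_le _ _
    _ ≤ ∑' _m : T, K * S := ENNReal.tsum_le_tsum (fun m => hpiece m)
    _ = (T.card : ℝ≥0∞) * (K * S) := by
        rw [tsum_fintype, Finset.sum_const, Finset.card_univ, Fintype.card_coe, nsmul_eq_mul]
    _ ≤ ENNReal.ofReal ((5 * d) ^ d * (A / δ) ^ ((d:ℝ) / k)) * (K * S) := by
        gcongr
        rw [← ENNReal.ofReal_natCast]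
        exact ENNReal.ofReal_le_ofReal hcard
    _ = ENNReal.ofReal ((5 * d) ^ d * cst d k * (A / δ) ^ ((d:ℝ) / k)
          * (1 + Real.log (1 / δ)) ^ d) * S := by
        rw [hK, ← mul_assoc, ← ENNReal.ofReal_mul (by positivity)]
        congr 2
        ring

/-- **Kakeya maximal estimate for smooth families of lines.** -/
theorem result (d k : ℕ) (hd : 1 ≤ d) (hk : 1 ≤ k) : ∃ C : ℝ, 0 < C ∧
    ∀ (A : ℝ) (B : Set (Vec d)) (b : Vec d → Vec d) (δ : ℝ) (f : Space d → ℝ),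
      1 ≤ A → MeasurableSet B → B ⊆ closedBall 0 1 → TaylorClass k A B b →
      0 < δ → δ < 1 → AEMeasurable f volume →
      ∫⁻ v in B, lineMax δ b f v ^ (d + 1)
        ≤ ENNReal.ofReal (C * (A / δ) ^ ((d:ℝ) / k) * (1 + Real.log (1 / δ)) ^ d)
          * ∫⁻ y, ‖f y‖ₑ ^ (d + 1) := by
  have hd' : (0:ℝ) < d := by exact_mod_cast hd
  refine ⟨(5 * d) ^ d * cst d k, by unfold cst; positivity, ?_⟩
  intro A B b δ f hA hB hB1 hb hδ hδ1 hf
  have h := main_measurable hd hk hA hB hB1 hb hδ hδ1 hf.measurable_mk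
  have e1 : ∀ v, lineMax δ b f v = lineMax δ b (hf.mk f) v :=
    fun v => lineMax_congr b v hf.ae_eq_mk
  have e2 : ∫⁻ y, ‖f y‖ₑ ^ (d + 1) = ∫⁻ y, ‖hf.mk f y‖ₑ ^ (d + 1) := by
    apply lintegral_congr_ae
    filter_upwards [hf.ae_eq_mk] with y hy
    rw [hy]
  simp only [e1]
  rw [e2]
  exact h

end Pool.Agent.Results.MP_5168f5_an.SmoothFamilies
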